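import Mathlib
import Pool.Agent.H12.AddPoset

set_option autoImplicit false

namespace Pool.Agent.Results.MP_3cee42_co.NotPlain

open Pool.Agent.H12.AddPoset

/-- `(A, le)` embeds in the additive powerset of a finite set. -/
def Plain {A : Type} [AddCommGroup A] (le : A → A → Prop) : Prop :=
  ∃ (I : Type) (_ : Finite I) (φ : A → Set I), Function.Injective φ ∧
    (∀ a b, φ (a + b) = symmDiff (φ a) (φ b)) ∧ ∀ a b, le a b ↔ φ a ⊆ φ b

def dot (c a : V) : ZMod 2 := a.1 * c.1 + a.2.1 * c.2.1 + a.2.2.1 * c.2.2.1 + a.2.2.2 * c.2.2.2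

theorem fin : ∀ c : V, (∀ p ∈ rel, dot c p.1 = 1 → dot c p.2 = 1) → dot c (1, 0, 0, 0) = 0 := by
  decide +kernel

theorem result : ¬ ∀ (A : Type) [AddCommGroup A] [Finite A] (le : A → A → Prop),
    IsAddPoset le → Plain le := by
  classical
  intro h
  obtain ⟨I, -, φ, h1, h2, h3⟩ := h V le le_addPoset
  have h0 : φ 0 = ∅ := by simpa using h2 0 0
  obtain ⟨i, hi⟩ : (φ (1, 0, 0, 0)).Nonempty := by
    rw [Set.nonempty_iff_ne_empty, ← h0]
    exact fun e => absurd (h1 e) (by decide)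
  let g : V → ZMod 2 := fun a => if i ∈ φ a then 1 else 0
  have ga : ∀ a b, g (a + b) = g a + g b := fun a b => by
    simp only [g, h2, Set.mem_symmDiff]
    by_cases ha : i ∈ φ a <;> by_cases hb : i ∈ φ b <;> simp [ha, hb]
    decide
  have gs : ∀ (t : ZMod 2) (v : V), g (t • v) = t * g v := fun t v => by
    rcases (by decide : ∀ t : ZMod 2, t = 0 ∨ t = 1) t with rfl | rfl
    · simp [g, h0]
    · simp
  let c : V := (g (1, 0, 0, 0), g (0, 1, 0, 0), g (0, 0, 1, 0), g (0, 0, 0, 1))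
  have gd : ∀ a, g a = dot c a := fun a => by
    have : a = a.1 • ((1, 0, 0, 0) : V) + a.2.1 • ((0, 1, 0, 0) : V) +
      a.2.2.1 • ((0, 0, 1, 0) : V) + a.2.2.2 • ((0, 0, 0, 1) : V) := by simp
    rw [this, ga, ga, ga, gs, gs, gs, gs, ← this]
    rfl
  have g1 : ∀ a, g a = 1 ↔ i ∈ φ a := fun a => by simp [g]
  have := fin c fun p hp h => by
    rw [← gd, g1] at h ⊢
    exact (h3 _ _).1 (Or.inr (Or.inr hp)) h
  rw [← gd, (g1 _).2 hi] at this
  exact absurd this (by decide)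

end Pool.Agent.Results.MP_3cee42_co.NotPlain
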